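import Pool.Agent.H.MP_d0a72d_lc.C

set_option autoImplicit false

namespace Pool.Agent.Results.MP_d0a72d_lc.NotClopen

/-- The space `2^P` of sets of primes with the product topology (`W p = true` means `p ∈ W`). -/
abbrev Space := Nat.Primes → Bool

/-- The subring `ℤ[1/p : p ∈ W]` of `ℚ`. -/
def R (W : Space) : Subring ℚ := Subring.closure {q | ∃ p : Nat.Primes, W p = true ∧ q = ((p : ℕ) : ℚ)⁻¹}

/-- The set of subrings in which `f` has a solution. -/
def A {n : ℕ} (f : MvPolynomial (Fin n) ℤ) : Set Space :=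
  {W | ∃ a : Fin n → ℚ, (∀ i, a i ∈ R W) ∧ MvPolynomial.aeval a f = 0}

/-- The interior of the complement of `A f`. -/
def C {n : ℕ} (f : MvPolynomial (Fin n) ℤ) : Set Space := interior (A f)ᶜ

/-- The cylinder of sets containing `F` and missing `G`. -/
def U (F G : Finset Nat.Primes) : Set Space := {W | (∀ p ∈ F, W p = true) ∧ ∀ p ∈ G, W p = false}

open Pool.Agent.H.MP_d0a72d_lc MvPolynomial

theorem norm_le_of_mem {W : Space} {q : ℚ} (h : q ∈ R W) (p : Nat.Primes) (hp : W p = false) :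
    padicNorm p q ≤ 1 := by
  have := Fact.mk p.2
  induction h using Subring.closure_induction with
  | mem x hx =>
    obtain ⟨r, hr, rfl⟩ := hx
    have := Fact.mk r.2
    have hne : (p : ℕ) ≠ r := fun h => by
      rw [Subtype.ext h, hr] at hp; exact Bool.noConfusion hp
    rw [← one_div, padicNorm.div, padicNorm.one, padicNorm.padicNorm_of_prime_of_ne hne, div_one]
  | zero => simp
  | one => simp
  | add x y _ _ hx hy => exact norm_add_le _ hx hy
  | neg x _ hx => rwa [padicNorm.neg]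
  | mul x y _ _ hx hy =>
    rw [padicNorm.mul]; exact mul_le_one₀ hx (padicNorm.nonneg _) hy

theorem inv_mem (W : Space) (n : ℕ) :
    (∀ p : Nat.Primes, (p : ℕ) ∣ n → W p = true) → ((n : ℕ) : ℚ)⁻¹ ∈ R W := by
  induction n using Nat.recOnMul with
  | zero => intro _; simp
  | one => intro _; simp
  | prime p hp => intro h; exact Subring.subset_closure ⟨⟨p, hp⟩, h ⟨p, hp⟩ dvd_rfl, rfl⟩
  | mul a b ha hb =>
    intro h
    rw [Nat.cast_mul, mul_inv]
    exact mul_mem (ha fun p hp => h p (hp.mul_right _)) (hb fun p hp => h p (hp.mul_left _))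

theorem mem_of_norm {W : Space} {q : ℚ} (h : ∀ p : Nat.Primes, W p = false → padicNorm p q ≤ 1) :
    q ∈ R W := by
  rw [← Rat.num_div_den q, div_eq_mul_inv]
  refine mul_mem (intCast_mem _ _) (inv_mem W _ fun p hp => ?_)
  by_contra hW
  have := Fact.mk p.2
  have h1 := h p (by simpa using hW)
  have h2 : padicNorm p q.num = 1 := norm_one (fun h2 =>
    (Nat.prime_iff_prime_int.1 p.2).not_unit ((Rat.isCoprime_num_den q).isUnit_of_dvd' h2
      (Int.natCast_dvd_natCast.2 hp)))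
  have h3 := (padicNorm.nat_lt_one_iff (p := p) q.den).2 hp
  rw [← Rat.mul_den_eq_num, padicNorm.mul] at h2
  have h4 := mul_lt_one_of_nonneg_of_lt_one_right h1 (padicNorm.nonneg _) h3
  linarith

noncomputable def ff : MvPolynomial (Fin 5) ℤ :=
  (1 - 6 * X 0 ^ 2 - X 1 ^ 2) ^ 2 + (1 + 6 * X 0 ^ 2 - X 2 ^ 2) ^ 2 + (X 3 ^ 2 + 1 - X 0 * X 4) ^ 2

theorem aeval_ff (a : Fin 5 → ℚ) : aeval a ff = 0 ↔
    1 - 6 * a 0 ^ 2 = a 1 ^ 2 ∧ 1 + 6 * a 0 ^ 2 = a 2 ^ 2 ∧ a 3 ^ 2 + 1 = a 0 * a 4 := by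
  have e : aeval a ff = (1 - 6 * a 0 ^ 2 - a 1 ^ 2) ^ 2 + (1 + 6 * a 0 ^ 2 - a 2 ^ 2) ^ 2 +
      (a 3 ^ 2 + 1 - a 0 * a 4) ^ 2 := by
    simp [ff, map_ofNat]
  rw [e]
  constructor
  · intro h
    have h1 := sq_nonneg (1 - 6 * a 0 ^ 2 - a 1 ^ 2)
    have h2 := sq_nonneg (1 + 6 * a 0 ^ 2 - a 2 ^ 2)
    have h3 := sq_nonneg (a 3 ^ 2 + 1 - a 0 * a 4)
    exact ⟨sub_eq_zero.1 (pow_eq_zero_iff two_ne_zero |>.1 (by linarith)),
      sub_eq_zero.1 (pow_eq_zero_iff two_ne_zero |>.1 (by linarith)),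
      sub_eq_zero.1 (pow_eq_zero_iff two_ne_zero |>.1 (by linarith))⟩
  · rintro ⟨h1, h2, h3⟩
    rw [h1, h2, h3]; ring

theorem result : ∃ n : ℕ, 1 ≤ n ∧ ∃ f : MvPolynomial (Fin n) ℤ,
    ¬ ∃ 𝒰 : Finset (Finset Nat.Primes × Finset Nat.Primes),
      C f = ⋃ FG ∈ 𝒰, U FG.1 FG.2 := by
  classical
  refine ⟨5, by norm_num, ff, ?_⟩
  rintro ⟨𝒰, h𝒰⟩
  let T : Finset Nat.Primes := 𝒰.biUnion fun FG => FG.1 ∪ FG.2
  obtain ⟨j, b, hb, h3, hbj, hT⟩ := exists_b (T.image Subtype.val)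
  have hg : ∀ i, ∃ p : ℕ, p.Prime ∧ (p : ℤ) ∣ sa i := fun i => by
    have h6 := (sol i).ane
    obtain ⟨p, hp, h⟩ := Nat.exists_prime_and_dvd (n := (sa i).natAbs) (fun h => by
      rcases Int.natAbs_eq_iff.1 h with h | h <;> rw [h] at h6 <;> norm_num at h6)
    exact ⟨p, hp, Int.natCast_dvd.2 h⟩
  choose g hg using hg
  let W0 : Space := fun p => decide (¬ ∃ i, ((p : ℕ) : ℤ) ∣ sa i)
  let W1 : Space := Function.update W0 ⟨b, hb⟩ false
  have h1 : W1 ∈ C ff := by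
    let G : Finset Nat.Primes := insert ⟨b, hb⟩ ((Finset.range (j + 1)).image fun i => ⟨g i, (hg i).1⟩)
    have hsub : {W : Space | ∀ p ∈ G, W p = false} ⊆ (A ff)ᶜ := by
      rintro W hW ⟨a, ha, e⟩
      obtain ⟨e1, e2, e3⟩ := (aeval_ff a).1 e
      refine covering hb h3 hbj g hg e1 e2 e3 (norm_le_of_mem (ha 4) ⟨b, hb⟩ (hW _ (by simp [G])))
        (fun i hi => norm_le_of_mem (ha 0) ⟨g i, (hg i).1⟩ (hW _ ?_))
      exact Finset.mem_insert_of_mem (Finset.mem_image.2 ⟨i, Finset.mem_range.2 (by omega), rfl⟩)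
    have hop : IsOpen {W : Space | ∀ p ∈ G, W p = false} := by
      have : {W : Space | ∀ p ∈ G, W p = false} = ⋂ p ∈ G, (fun W : Space => W p) ⁻¹' {false} := by
        ext W; simp
      rw [this]
      exact isOpen_biInter_finset fun p _ => (isOpen_discrete _).preimage (continuous_apply p)
    refine interior_maximal hsub hop (fun p hp => ?_)
    by_cases hpb : p = ⟨b, hb⟩
    · simp [W1, hpb]
    · rcases Finset.mem_insert.1 hp with h | h
      · exact absurd h hpb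
      · obtain ⟨i, -, rfl⟩ := Finset.mem_image.1 h
        simp only [W1, Function.update_of_ne hpb, W0, decide_eq_false_iff_not, not_not]
        exact ⟨i, (hg i).2⟩
  have h0 : W0 ∈ C ff := by
    rw [h𝒰] at h1 ⊢
    obtain ⟨FG, hFG, h⟩ := Set.mem_iUnion₂.1 h1
    have hne : ∀ p ∈ FG.1 ∪ FG.2, W1 p = W0 p := fun p hp => Function.update_of_ne (by
      rintro rfl
      exact hT (Finset.mem_image.2 ⟨_, Finset.mem_biUnion.2 ⟨FG, hFG, hp⟩, rfl⟩)) _ _
    exact Set.mem_iUnion₂.2 ⟨FG, hFG, fun p hp => hne p (by simp [hp]) ▸ h.1 p hp,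
      fun p hp => hne p (by simp [hp]) ▸ h.2 p hp⟩
  have h2 := mem_interior_iff_mem_nhds.1 h0
  rw [nhds_pi, Filter.mem_pi] at h2
  obtain ⟨I, hI, t, ht, hsub⟩ := h2
  let G : Finset Nat.Primes := hI.toFinset.filter fun p => W0 p = false
  obtain ⟨u, β, γ, X, Z, e1, e2, e3, hn⟩ := noncover (G.image Subtype.val) (fun p hp => by
    obtain ⟨q, hq, rfl⟩ := Finset.mem_image.1 hp
    exact ⟨q.2, by simpa [W0] using (Finset.mem_filter.1 hq).2⟩)
  let W2 : Space := fun p => decide (p ∉ G)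
  refine hsub (a := W2) (fun p hp => ?_) ⟨![u, β, γ, X, Z], fun i => mem_of_norm fun p hp => ?_,
    (aeval_ff _).2 ⟨e1, e2, e3⟩⟩
  · have : W2 p = W0 p := by
      cases h : W0 p <;> simp [W2, G, h, hp]
    rw [this]; exact mem_of_mem_nhds (ht p)
  · have hp' : p ∈ G := by simpa [W2] using hp
    obtain ⟨a1, a2, a3, a4, a5⟩ := hn p (Finset.mem_image_of_mem _ hp')
    fin_cases i <;> assumption

end Pool.Agent.Results.MP_d0a72d_lc.NotClopen
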